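import Mathlib

/-!
# Equality of the eternal domination number and the clique cover number is lost in prisms

There is a graph `G` with `θ(G) = γ^∞(G)` and `γ^∞(G □ K₂) < θ(G □ K₂)`.

The graph: let `H` be the complement of the circulant graph `C₁₃(1,5)`, and let `G` be the corona of
`H`: a pendant vertex is attached to each vertex of `H`. Then

* the 13 pendant vertices are independent and the 13 pendant edges cover `G`, so
  `θ(G) = γ^∞(G) = 13`;
* `H` has no independent set with three vertices; so the sets of three vertices which contain two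
  nonadjacent vertices form an eternal family of `H`, `γ^∞(H) ≤ 3`. In the prism of `G`, three
  guards in each of the two copies of `H` and one guard in each of the 13 pairs of pendant vertices
  are enough, `γ^∞(G □ K₂) ≤ 19`;
* give the weight `1/4` to the vertices of the copies of `H` and the weight `1/2` to the pendant
  vertices. Since `H` has no clique with five vertices, every clique of the prism has weight at
  most `1`. The weight of the prism is `26/4 + 26/2 = 19.5`, so `θ(G □ K₂) ≥ 20`.
-/

set_option autoImplicit false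

namespace Pool.Agent.Results.MP_349597_co.PrismDisproof

open Finset

variable {V : Type}

/-- `D` is a dominating set of `G`. -/
def IsDominating (G : SimpleGraph V) (D : Finset V) : Prop := ∀ v ∉ D, ∃ u ∈ D, G.Adj u v

/-- `F` is an eternal family of `k`-element dominating sets of `G`: it is nonempty, and for every
`D ∈ F` and every `v ∉ D` there is a neighbour `u ∈ D` of `v` with `(D \ {u}) ∪ {v} ∈ F`. -/
def IsEternal [DecidableEq V] (G : SimpleGraph V) (k : ℕ) (F : Set (Finset V)) : Prop :=
  F.Nonempty ∧ (∀ D ∈ F, D.card = k ∧ IsDominating G D) ∧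
    ∀ D ∈ F, ∀ v ∉ D, ∃ u ∈ D, G.Adj v u ∧ insert v (D.erase u) ∈ F

/-- The eternal domination number `γ^∞(G)`: the least `k ≥ 1` for which there is an eternal family
of `k`-element dominating sets. -/
noncomputable def eternalNumber [DecidableEq V] (G : SimpleGraph V) : ℕ :=
  sInf {k : ℕ | 1 ≤ k ∧ ∃ F, IsEternal G k F}

/-- The clique cover number `θ(G)`: the least number of cliques whose vertex sets partition the
set of vertices. -/
noncomputable def cliqueCoverNumber [Fintype V] [DecidableEq V] (G : SimpleGraph V) : ℕ :=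
  sInf {k : ℕ | ∃ P : Finpartition (univ : Finset V),
    P.parts.card = k ∧ ∀ C ∈ P.parts, G.IsClique (C : Set V)}

/-! ### General bounds -/

/-- the lower bound of the clique cover number by weights -/
theorem weight_le [Fintype V] [DecidableEq V] {G : SimpleGraph V} {w : V → ℕ} {c : ℕ}
    (hw : ∀ C : Finset V, G.IsClique (C : Set V) → ∑ v ∈ C, w v ≤ c) :
    ∑ v, w v ≤ c * cliqueCoverNumber G := by
  have hne : {k : ℕ | ∃ P : Finpartition (univ : Finset V),
      P.parts.card = k ∧ ∀ C ∈ P.parts, G.IsClique (C : Set V)}.Nonempty := by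
    refine ⟨(⊥ : Finpartition (univ : Finset V)).parts.card, ⊥, rfl, ?_⟩
    intro C hC
    rw [Finpartition.mem_bot_iff] at hC
    obtain ⟨a, _, rfl⟩ := hC
    simp
  obtain ⟨P, h1, h2⟩ := Nat.sInf_mem hne
  have h3 : ∑ v, w v = ∑ C ∈ P.parts, ∑ v ∈ C, w v := by
    have h4 : ∑ v ∈ P.parts.biUnion id, w v = ∑ C ∈ P.parts, ∑ v ∈ id C, w v :=
      Finset.sum_biUnion P.disjoint
    rw [P.biUnion_parts] at h4
    exact h4
  rw [h3]
  calc ∑ C ∈ P.parts, ∑ v ∈ C, w v ≤ ∑ C ∈ P.parts, c := Finset.sum_le_sum fun C hC => hw C (h2 C hC)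
    _ = c * cliqueCoverNumber G := by
        rw [Finset.sum_const, smul_eq_mul, mul_comm, h1]
        rfl

theorem cover_le [Fintype V] [DecidableEq V] {G : SimpleGraph V} (P : Finpartition (univ : Finset V))
    (hP : ∀ C ∈ P.parts, G.IsClique (C : Set V)) : cliqueCoverNumber G ≤ P.parts.card :=
  Nat.sInf_le ⟨P, rfl, hP⟩

theorem eternal_le [DecidableEq V] {G : SimpleGraph V} {k : ℕ} (hk : 1 ≤ k) {F : Set (Finset V)}
    (hF : IsEternal G k F) : eternalNumber G ≤ k := Nat.sInf_le ⟨hk, F, hF⟩

/-! ### The graph -/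

/-- adjacency in the complement of the circulant graph `C₁₃(1,5)` -/
def far (i j : Fin 13) : Prop := i ≠ j ∧ i - j ≠ 1 ∧ j - i ≠ 1 ∧ i - j ≠ 5 ∧ j - i ≠ 5

instance : DecidableRel far := fun i j => by unfold far; infer_instance

theorem far_symm {i j : Fin 13} (h : far i j) : far j i :=
  ⟨h.1.symm, h.2.2.1, h.2.1, h.2.2.2.2, h.2.2.2.1⟩

theorem no_indep : ∀ i j k : Fin 13, i ≠ j → j ≠ k → i ≠ k → far i j ∨ far j k ∨ far i k := by
  decide +kernel

theorem no_five : ∀ a b : Fin 13, far a b → ∀ c, far a c → far b c → ∀ d, far a d → far b d →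
    far c d → ∀ e, far a e → far b e → far c e → far d e → False := by
  decide +kernel

/-- a clique of the complement of `C₁₃(1,5)` has at most four vertices -/
theorem card_far {S : Finset (Fin 13)} (hS : ∀ i ∈ S, ∀ j ∈ S, i ≠ j → far i j) : S.card ≤ 4 := by
  by_contra hcon
  obtain ⟨T, hTS, hT⟩ := Finset.exists_subset_card_eq (show 5 ≤ S.card by omega)
  let f := T.orderEmbOfFin hT
  have hm : ∀ x, f x ∈ S := fun x => hTS (T.orderEmbOfFin_mem hT x)
  have hf : ∀ x y, x ≠ y → far (f x) (f y) := fun x y hxy =>
    hS _ (hm x) _ (hm y) (fun h => hxy (f.injective h))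
  exact no_five (f 0) (f 1) (hf _ _ (by decide)) (f 2) (hf _ _ (by decide)) (hf _ _ (by decide))
    (f 3) (hf _ _ (by decide)) (hf _ _ (by decide)) (hf _ _ (by decide)) (f 4)
    (hf _ _ (by decide)) (hf _ _ (by decide)) (hf _ _ (by decide)) (hf _ _ (by decide))

/-- The graph: the vertices `(i, false)` induce the complement of `C₁₃(1,5)`, and `(i, true)` is a
pendant vertex attached to `(i, false)`. -/
def G : SimpleGraph (Fin 13 × Bool) where
  Adj p q := (p.2 = false ∧ q.2 = false ∧ far p.1 q.1) ∨ (p.1 = q.1 ∧ p.2 ≠ q.2)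
  symm := ⟨by
    rintro p q (⟨h1, h2, h3⟩ | ⟨h1, h2⟩)
    · exact Or.inl ⟨h2, h1, far_symm h3⟩
    · exact Or.inr ⟨h1.symm, h2.symm⟩⟩
  loopless := ⟨by
    rintro p (⟨_, _, h3⟩ | ⟨_, h2⟩)
    · exact h3.1 rfl
    · exact h2 rfl⟩

theorem adj_pendant {i : Fin 13} {q : Fin 13 × Bool} (h : G.Adj (i, true) q) : q = (i, false) := by
  rcases h with ⟨h1, _⟩ | ⟨h1, h2⟩
  · exact absurd h1 (by simp)
  · obtain ⟨j, b⟩ := q
    cases b
    · exact Prod.ext h1.symm rfl
    · exact absurd rfl h2

/-! ### The graph `G` itself -/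

theorem eternal_ge {k : ℕ} {F : Set (Finset (Fin 13 × Bool))} (hF : IsEternal G k F) :
    13 ≤ k := by
  classical
  let cnt : Finset (Fin 13 × Bool) → ℕ := fun D => (univ.filter fun i : Fin 13 => (i, true) ∈ D).card
  obtain ⟨D, hD, hmax⟩ := Set.exists_max_image F cnt F.toFinite hF.1
  have hall : ∀ i : Fin 13, (i, true) ∈ D := by
    intro i
    by_contra hi
    obtain ⟨u, hu, hadj, hnew⟩ := hF.2.2 D hD (i, true) hi
    have hu' := adj_pendant hadj
    subst hu'
    have h1 := hmax _ hnew
    have h2 : (univ.filter fun j : Fin 13 => (j, true) ∈ insert (i, true) (D.erase (i, false)))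
        = insert i (univ.filter fun j : Fin 13 => (j, true) ∈ D) := by
      ext j
      simp
    have h3 : cnt (insert (i, true) (D.erase (i, false))) = cnt D + 1 := by
      show (univ.filter _).card = (univ.filter _).card + 1
      rw [h2, Finset.card_insert_of_notMem]
      simpa using hi
    omega
  have h4 : (univ.image fun i : Fin 13 => (i, true)) ⊆ D := by
    intro p hp
    obtain ⟨i, _, rfl⟩ := Finset.mem_image.mp hp
    exact hall i
  have h5 := Finset.card_le_card h4
  rw [Finset.card_image_of_injective _ (fun i j h => (Prod.mk.inj h).1), (hF.2.1 D hD).1] at h5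
  simpa using h5

theorem eternal_G : eternalNumber G = 13 := by
  classical
  have key : IsEternal G 13
      {D | ∃ f : Fin 13 → Bool, D = univ.filter fun p : Fin 13 × Bool => p.2 = f p.1} := by
    have hatt : ∀ (f : Fin 13 → Bool) (v : Fin 13 × Bool),
        v ∉ (univ.filter fun p : Fin 13 × Bool => p.2 = f p.1) →
        ∃ u ∈ (univ.filter fun p : Fin 13 × Bool => p.2 = f p.1), G.Adj v u ∧
          insert v ((univ.filter fun p : Fin 13 × Bool => p.2 = f p.1).erase u)
            = univ.filter fun p : Fin 13 × Bool => p.2 = Function.update f v.1 v.2 p.1 := by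
      intro f v hv
      have hv' : v.2 ≠ f v.1 := by simpa using hv
      refine ⟨(v.1, f v.1), by simp, Or.inr ⟨rfl, hv'⟩, ?_⟩
      ext ⟨j, b⟩
      obtain ⟨i, c⟩ := v
      simp only [mem_insert, mem_erase, mem_filter, mem_univ, true_and, Prod.mk.injEq, ne_eq]
      by_cases hj : j = i
      · subst hj
        simp only [Function.update_self, true_and]
        constructor
        · rintro (h | ⟨h1, h2⟩)
          · exact h
          · exact absurd h2 h1
        · exact fun h => Or.inl h
      · rw [Function.update_of_ne hj]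
        simp [hj]
    refine ⟨⟨_, fun _ => true, rfl⟩, ?_, ?_⟩
    · rintro D ⟨f, rfl⟩
      refine ⟨?_, fun v hv => ?_⟩
      · have h1 : (univ.filter fun p : Fin 13 × Bool => p.2 = f p.1)
            = univ.image fun i : Fin 13 => (i, f i) := by
          ext ⟨j, b⟩
          simp only [mem_filter, mem_univ, true_and, mem_image, Prod.mk.injEq]
          constructor
          · rintro rfl
            exact ⟨j, rfl, rfl⟩
          · rintro ⟨a, rfl, rfl⟩
            rfl
        rw [h1, Finset.card_image_of_injective _ (fun i j h => (Prod.mk.inj h).1)]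
        simp
      · obtain ⟨u, h1, h2, _⟩ := hatt f v hv
        exact ⟨u, h1, h2.symm⟩
    · rintro D ⟨f, rfl⟩ v hv
      obtain ⟨u, h1, h2, h3⟩ := hatt f v hv
      exact ⟨u, h1, h2, _, h3⟩
  refine le_antisymm (eternal_le (by norm_num) key) ?_
  have hne : {k : ℕ | 1 ≤ k ∧ ∃ F, IsEternal G k F}.Nonempty := ⟨13, by norm_num, _, key⟩
  obtain ⟨_, F, hF⟩ := Nat.sInf_mem hne
  exact eternal_ge hF

/-- the partition of the vertices into the 13 pendant edges -/
def pend : Finpartition (univ : Finset (Fin 13 × Bool)) where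
  parts := univ.image fun i : Fin 13 => {(i, false), (i, true)}
  supIndep := by
    rw [Finset.supIndep_iff_pairwiseDisjoint]
    intro C hC D hD hCD
    simp only [coe_image, coe_univ, Set.image_univ, Set.mem_range] at hC hD
    obtain ⟨i, rfl⟩ := hC
    obtain ⟨j, rfl⟩ := hD
    have hij : i ≠ j := fun h => hCD (by rw [h])
    simp only [id, Function.onFun]
    rw [Finset.disjoint_left]
    intro p hp hq
    simp only [mem_insert, mem_singleton] at hp hq
    rcases hp with rfl | rfl <;> rcases hq with h | h <;> exact hij (Prod.mk.inj h).1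
  sup_parts := by
    ext ⟨i, b⟩
    simp only [Finset.mem_sup, mem_image, mem_univ, true_and, id, iff_true]
    refine ⟨_, ⟨i, rfl⟩, ?_⟩
    cases b <;> simp
  bot_notMem := by
    intro h
    simp only [mem_image, mem_univ, true_and, Finset.bot_eq_empty] at h
    obtain ⟨i, hi⟩ := h
    exact Finset.insert_ne_empty _ _ hi

theorem cover_G : cliqueCoverNumber G = 13 := by
  refine le_antisymm ?_ ?_
  · refine (cover_le pend ?_).trans (Finset.card_image_le.trans (by simp))
    intro C hC
    obtain ⟨i, _, rfl⟩ := Finset.mem_image.mp hC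
    intro p hp q hq hpq
    simp only [coe_insert, coe_singleton, Set.mem_insert_iff, Set.mem_singleton_iff] at hp hq
    rcases hp with rfl | rfl <;> rcases hq with rfl | rfl
    · exact absurd rfl hpq
    · exact Or.inr ⟨rfl, by simp⟩
    · exact Or.inr ⟨rfl, by simp⟩
    · exact absurd rfl hpq
  · have h := weight_le (G := G) (w := fun p => if p.2 = true then 1 else 0) (c := 1) ?_
    · rw [one_mul] at h
      refine le_trans (le_of_eq ?_) h
      rw [Fintype.sum_prod_type]
      simp
    · intro C hC
      rw [← Finset.card_filter]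
      by_contra hcon
      push Not at hcon
      obtain ⟨p, hp, q, hq, hpq⟩ := Finset.one_lt_card.mp hcon
      rw [mem_filter] at hp hq
      have h1 := hC hp.1 hq.1 hpq
      obtain ⟨i, b⟩ := p
      obtain ⟨j, c⟩ := q
      simp only at hp hq
      obtain ⟨hp1, rfl⟩ := hp
      obtain ⟨hq1, rfl⟩ := hq
      exact absurd (adj_pendant h1) (by simp)

/-! ### The prism -/

open SimpleGraph in
/-- The prism `G □ K₂`. -/
abbrev prism {W : Type} (G : SimpleGraph W) : SimpleGraph (W × Fin 2) := G □ (⊤ : SimpleGraph (Fin 2))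

/-- the weight of a vertex of the prism -/
def wt (p : (Fin 13 × Bool) × Fin 2) : ℕ := if p.1.2 = true then 2 else 1

theorem clique_wt {C : Finset ((Fin 13 × Bool) × Fin 2)} (hC : (prism G).IsClique (C : Set _)) :
    ∑ p ∈ C, wt p ≤ 4 := by
  classical
  rcases Nat.lt_or_ge 2 C.card with hc | hc
  · have hadj : ∀ p ∈ C, ∀ q ∈ C, p ≠ q → (G.Adj p.1 q.1 ∧ p.2 = q.2) ∨ (p.2 ≠ q.2 ∧ p.1 = q.1) := by
      intro p hp q hq hpq
      have h := hC hp hq hpq
      rw [SimpleGraph.boxProd_adj] at h
      exact h
    have hthird : ∀ p q, ∃ r ∈ C, r ≠ p ∧ r ≠ q := by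
      intro p q
      by_contra hcon
      push Not at hcon
      have : C ⊆ {p, q} := by
        intro r hr
        rw [mem_insert, mem_singleton]
        by_cases h : r = p
        · exact Or.inl h
        · exact Or.inr (hcon r hr h)
      have h1 := (Finset.card_le_card this).trans Finset.card_le_two
      omega
    have hlayer : ∀ p ∈ C, ∀ q ∈ C, p.2 = q.2 := by
      intro p hp q hq
      by_contra hpq
      have hne : p ≠ q := fun h => hpq (by rw [h])
      have h1 : p.1 = q.1 := by
        rcases hadj p hp q hq hne with h | h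
        · exact absurd h.2 hpq
        · exact h.2
      obtain ⟨r, hr, hrp, hrq⟩ := hthird p q
      have h2 : r.2 = p.2 ∨ r.2 = q.2 := by
        have : ∀ x y z : Fin 2, y ≠ z → x = y ∨ x = z := by decide
        exact this _ _ _ hpq
      rcases h2 with h2 | h2
      · rcases hadj r hr q hq hrq with h | h
        · exact hpq (h2.symm.trans h.2)
        · exact hrp (Prod.ext (h.2.trans h1.symm) h2)
      · rcases hadj r hr p hp hrp with h | h
        · exact hpq (h.2.symm.trans h2)
        · exact hrq (Prod.ext (h.2.trans h1) h2)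
    have hG : ∀ p ∈ C, ∀ q ∈ C, p ≠ q → G.Adj p.1 q.1 := by
      intro p hp q hq hpq
      rcases hadj p hp q hq hpq with h | h
      · exact h.1
      · exact absurd (hlayer p hp q hq) h.1
    have hbase : ∀ p ∈ C, p.1.2 = false := by
      intro p hp
      by_contra hp2
      have hp3 : p.1 = (p.1.1, true) := Prod.ext rfl (by simpa using hp2)
      obtain ⟨q, hq, hqp, _⟩ := hthird p p
      obtain ⟨r, hr, hrp, hrq⟩ := hthird p q
      have h1 := hG p hp q hq hqp.symm
      have h2 := hG p hp r hr hrp.symm
      rw [hp3] at h1 h2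
      have h3 := adj_pendant h1
      have h4 := adj_pendant h2
      exact hrq (Prod.ext (h4.trans h3.symm) (hlayer r hr q hq))
    have hwt : ∑ p ∈ C, wt p = C.card := by
      rw [Finset.card_eq_sum_ones]
      refine Finset.sum_congr rfl fun p hp => ?_
      simp [wt, hbase p hp]
    have hinj : Set.InjOn (fun p : (Fin 13 × Bool) × Fin 2 => p.1.1) (C : Set _) := by
      intro p hp q hq hpq
      exact Prod.ext (Prod.ext hpq ((hbase p hp).trans (hbase q hq).symm)) (hlayer p hp q hq)
    rw [hwt, ← Finset.card_image_of_injOn hinj]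
    refine card_far ?_
    intro i hi j hj hij
    obtain ⟨p, hp, rfl⟩ := Finset.mem_image.mp hi
    obtain ⟨q, hq, rfl⟩ := Finset.mem_image.mp hj
    rcases hG p hp q hq (fun h => hij (by rw [h])) with h | h
    · exact h.2.2
    · exact absurd h.1 hij
  · calc ∑ p ∈ C, wt p ≤ ∑ p ∈ C, 2 := Finset.sum_le_sum fun p _ => by unfold wt; split <;> simp
      _ ≤ 4 := by rw [Finset.sum_const, smul_eq_mul]; omega

theorem cover_prism : 20 ≤ cliqueCoverNumber (prism G) := by
  have h := weight_le (G := prism G) (w := wt) (c := 4) (fun C hC => clique_wt hC)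
  have h2 : ∑ p, wt p = 78 := by
    rw [Fintype.sum_prod_type, Fintype.sum_prod_type]
    simp [wt]
  omega

/-- the sets of three vertices of `H` which contain two nonadjacent vertices -/
def good (A : Finset (Fin 13)) : Prop := A.card = 3 ∧ ∃ a ∈ A, ∃ b ∈ A, a ≠ b ∧ ¬ far a b

theorem good_attack {A : Finset (Fin 13)} (hA : good A) {v : Fin 13} (hv : v ∉ A) :
    ∃ u ∈ A, far v u ∧ good (insert v (A.erase u)) := by
  obtain ⟨hc, a, ha, b, hb, hab, hf⟩ := hA
  have hcard : ∀ u ∈ A, (insert v (A.erase u)).card = 3 := by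
    intro u hu
    rw [Finset.card_insert_of_notMem (fun h => hv (Finset.mem_of_mem_erase h)),
      Finset.card_erase_of_mem hu, hc]
  have hva : v ≠ a := fun h => hv (h ▸ ha)
  have hvb : v ≠ b := fun h => hv (h ▸ hb)
  obtain ⟨c, hcA, hca, hcb⟩ : ∃ c ∈ A, c ≠ a ∧ c ≠ b := by
    by_contra hcon
    push Not at hcon
    have : A ⊆ {a, b} := by
      intro r hr
      rw [mem_insert, mem_singleton]
      by_cases h : r = a
      · exact Or.inl h
      · exact Or.inr (hcon r hr h)
    have h1 := (Finset.card_le_card this).trans Finset.card_le_two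
    omega
  have hvc : v ≠ c := fun h => hv (h ▸ hcA)
  by_cases hfc : far v c
  · exact ⟨c, hcA, hfc, hcard c hcA, a, by simp [ha, hca.symm], b, by simp [hb, hcb.symm], hab, hf⟩
  · rcases no_indep a b v hab hvb.symm hva.symm with h | h | h
    · exact absurd h hf
    · exact ⟨b, hb, far_symm h, hcard b hb, v, by simp, c, by simp [hcA, hcb], hvc, hfc⟩
    · exact ⟨a, ha, far_symm h, hcard a ha, v, by simp, c, by simp [hcA, hca], hvc, hfc⟩

/-- the positions of the guards in the prism -/
def pos (g : Fin 13 → Fin 2) (A : Fin 2 → Finset (Fin 13)) : Finset ((Fin 13 × Bool) × Fin 2) :=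
  univ.filter fun p => (p.1.2 = true ∧ p.2 = g p.1.1) ∨ (p.1.2 = false ∧ p.1.1 ∈ A p.2)

theorem card_pos (g : Fin 13 → Fin 2) (A : Fin 2 → Finset (Fin 13)) (hA : ∀ s, (A s).card = 3) :
    (pos g A).card = 19 := by
  unfold pos
  rw [Finset.card_filter, Fintype.sum_prod_type, Fintype.sum_prod_type]
  simp only [Fintype.sum_bool, Fin.sum_univ_two, true_and, Bool.true_eq_false, false_and, or_false,
    Bool.false_eq_true, false_or]
  rw [Finset.sum_add_distrib, Finset.sum_add_distrib (f := fun i => if i ∈ A 0 then 1 else 0)]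
  have h1 : ∀ i, ((if 0 = g i then 1 else 0) + if 1 = g i then 1 else 0) = 1 := by
    intro i
    have : ∀ x : Fin 2, ((if 0 = x then 1 else 0) + if 1 = x then 1 else 0) = 1 := by decide
    exact this _
  simp [h1, hA]

theorem eternal_prism : eternalNumber (prism G) ≤ 19 := by
  classical
  have hatt : ∀ (g : Fin 13 → Fin 2) (A : Fin 2 → Finset (Fin 13)), (∀ s, good (A s)) →
      ∀ v ∉ pos g A, ∃ u ∈ pos g A, (prism G).Adj v u ∧
        ∃ g' A', (∀ s, good (A' s)) ∧ insert v ((pos g A).erase u) = pos g' A' := by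
    rintro g A hA ⟨⟨i, b⟩, s⟩ hv
    cases b
    · -- attack at a vertex of a copy of `H`
      have hv' : i ∉ A s := by simpa [pos] using hv
      obtain ⟨u, hu, hf, hgood⟩ := good_attack (hA s) hv'
      refine ⟨((u, false), s), by simpa [pos] using hu, ?_, g,
        Function.update A s (insert i ((A s).erase u)), ?_, ?_⟩
      · rw [SimpleGraph.boxProd_adj]
        exact Or.inl ⟨Or.inl ⟨rfl, rfl, hf⟩, rfl⟩
      · intro r
        by_cases hr : r = s
        · subst hr
          rwa [Function.update_self]
        · rw [Function.update_of_ne hr]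
          exact hA r
      · ext ⟨⟨j, c⟩, r⟩
        simp only [pos, mem_insert, mem_erase, mem_filter, mem_univ, true_and, Prod.mk.injEq, ne_eq]
        by_cases hr : r = s
        · subst hr
          rw [Function.update_self]
          cases c <;> simp
        · rw [Function.update_of_ne hr]
          simp [hr]
    · -- attack at a pendant vertex
      have hv' : s ≠ g i := by simpa [pos] using hv
      refine ⟨((i, true), g i), by simp [pos], ?_, Function.update g i s, A, hA, ?_⟩
      · rw [SimpleGraph.boxProd_adj]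
        exact Or.inr ⟨hv', rfl⟩
      · ext ⟨⟨j, c⟩, r⟩
        simp only [pos, mem_insert, mem_erase, mem_filter, mem_univ, true_and, Prod.mk.injEq, ne_eq]
        by_cases hj : j = i
        · subst hj
          rw [Function.update_self]
          cases c
          · simp
          · simp only [true_and, Bool.true_eq_false, false_and, or_false]
            constructor
            · rintro (h | ⟨h1, h2⟩)
              · exact h
              · exact absurd h2 h1
            · exact fun h => Or.inl h
        · rw [Function.update_of_ne hj]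
          simp [hj]
  refine eternal_le (by norm_num) (F := {D | ∃ g A, (∀ s, good (A s)) ∧ D = pos g A}) ⟨?_, ?_, ?_⟩
  · refine ⟨_, fun _ => 0, fun _ => {0, 1, 2}, ?_, rfl⟩
    intro s
    show good {0, 1, 2}
    exact ⟨by decide, 0, by decide, 1, by decide, by decide, by decide⟩
  · rintro D ⟨g, A, hA, rfl⟩
    refine ⟨card_pos g A fun s => (hA s).1, fun v hv => ?_⟩
    obtain ⟨u, h1, h2, _⟩ := hatt g A hA v hv
    exact ⟨u, h1, h2.symm⟩
  · rintro D ⟨g, A, hA, rfl⟩ v hv
    obtain ⟨u, h1, h2, g', A', h3, h4⟩ := hatt g A hA v hv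
    exact ⟨u, h1, h2, g', A', h3, h4⟩

theorem connected_G : G.Connected := by
  have h1 : ∀ i : Fin 13, G.Reachable (i, false) (0, false) := by
    have h2 : ∀ i : Fin 13, i = 0 ∨ far i 0 ∨ ∃ k, far i k ∧ far k 0 := by decide
    intro i
    rcases h2 i with rfl | h | ⟨k, h, h'⟩
    · exact SimpleGraph.Reachable.refl _
    · exact SimpleGraph.Adj.reachable (Or.inl ⟨rfl, rfl, h⟩)
    · exact (SimpleGraph.Adj.reachable (v := (k, false)) (Or.inl ⟨rfl, rfl, h⟩)).trans
        (SimpleGraph.Adj.reachable (Or.inl ⟨rfl, rfl, h'⟩))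
  have h3 : ∀ p : Fin 13 × Bool, G.Reachable p (0, false) := by
    rintro ⟨i, b⟩
    cases b
    · exact h1 i
    · exact (SimpleGraph.Adj.reachable (v := (i, false)) (Or.inr ⟨rfl, by simp⟩)).trans (h1 i)
  exact ⟨fun p q => (h3 p).trans (h3 q).symm⟩

/-- **Main result.** There is a finite connected graph `G` with `θ(G) = γ^∞(G)` and
`γ^∞(G □ K₂) < θ(G □ K₂)`. -/
theorem result : ∃ (V : Type) (_ : Fintype V) (_ : DecidableEq V) (G : SimpleGraph V),
    G.Connected ∧ cliqueCoverNumber G = eternalNumber G ∧
      eternalNumber (prism G) < cliqueCoverNumber (prism G) := by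
  refine ⟨_, inferInstance, inferInstance, G, connected_G, cover_G.trans eternal_G.symm, ?_⟩
  have h2 := cover_prism
  have h3 := eternal_prism
  omega

end Pool.Agent.Results.MP_349597_co.PrismDisproof
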